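import Pool.Agent.H20.MT.Stmts
import Pool.Agent.H20.MT.Rho

/-!
# Module RES
-/

set_option autoImplicit false

namespace MTA
open Finset MeasureTheory

private noncomputable def resG (x u : ℝ) : ℝ := if u ≤ 0 then 0 else rho (Real.log (u / x))

private lemma resG_nonneg (x u : ℝ) : 0 ≤ resG x u := by
  unfold resG
  split_ifs
  · exact le_rfl
  · exact rho_nonneg _

private lemma resG_le (x u : ℝ) : resG x u ≤ 1 := by
  unfold resG
  split_ifs
  · exact zero_le_one
  · exact rho_le_one _

private lemma resG_mono {x u v : ℝ} (hx : 0 < x) (huv : u ≤ v) (hv : v ≤ x) :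
    resG x u ≤ resG x v := by
  rcases le_or_gt u 0 with hu | hu
  · have : resG x u = 0 := by unfold resG; rw [if_pos hu]
    rw [this]; exact resG_nonneg _ _
  · have hv0 : 0 < v := lt_of_lt_of_le hu huv
    unfold resG
    rw [if_neg (not_le.2 hu), if_neg (not_le.2 hv0)]
    apply rho_anti
    have h1 : Real.log (v / x) ≤ 0 := Real.log_nonpos (by positivity) ((div_le_one hx).2 hv)
    have h2 : Real.log (u / x) ≤ Real.log (v / x) :=
      Real.log_le_log (by positivity) (by gcongr)
    rw [abs_of_nonpos h1, abs_of_nonpos (h2.trans h1)]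
    linarith

private lemma resG_anti {x u v : ℝ} (hx : 0 < x) (huv : u ≤ v) (hu : x ≤ u) :
    resG x v ≤ resG x u := by
  have hu0 : 0 < u := lt_of_lt_of_le hx hu
  have hv0 : 0 < v := lt_of_lt_of_le hu0 huv
  unfold resG
  rw [if_neg (not_le.2 hu0), if_neg (not_le.2 hv0)]
  apply rho_anti
  have h1 : 0 ≤ Real.log (u / x) := Real.log_nonneg ((one_le_div hx).2 hu)
  have h2 : Real.log (u / x) ≤ Real.log (v / x) :=
    Real.log_le_log (by positivity) (by gcongr)
  rw [abs_of_nonneg h1, abs_of_nonneg (h1.trans h2)]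
  linarith

private lemma res_rho_zero {v : ℝ} (hv : 8 ≤ v) : rho (Real.log v) = 0 := by
  apply rho_zero
  have h1 : Real.log 8 ≤ Real.log v := Real.log_le_log (by norm_num) hv
  have h2 : Real.log 8 = 3 * Real.log 2 := by
    rw [show (8 : ℝ) = 2 ^ 3 by norm_num, Real.log_pow]; norm_num
  have h3 := Real.log_two_gt_d9
  exact le_trans (by linarith) (le_abs_self _)

private lemma resG_zero {x u : ℝ} (hx : 0 < x) (hu : 8 * x ≤ u) : resG x u = 0 := by
  unfold resG
  split_ifs
  · rfl
  · exact res_rho_zero ((le_div_iff₀ hx).2 hu)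

private lemma res_int {x b : ℝ} (hx : 0 < x) (hb : 8 * x ≤ b) :
    ∫ u in (0 : ℝ)..b, resG x u = x * Irho := by
  have hb0 : 0 ≤ b := le_trans (by positivity) hb
  have h1 : ∫ u in (0 : ℝ)..b, resG x u = ∫ u in (0 : ℝ)..b, rho (Real.log (u / x)) := by
    rw [intervalIntegral.integral_of_le hb0, intervalIntegral.integral_of_le hb0]
    apply setIntegral_congr_fun measurableSet_Ioc
    intro u hu
    show resG x u = _
    unfold resG
    rw [if_neg (not_le.2 hu.1)]
  rw [h1, intervalIntegral.integral_comp_div (fun v => rho (Real.log v)) hx.ne', zero_div,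
    smul_eq_mul]
  congr 1
  have hbx : 8 ≤ b / x := (le_div_iff₀ hx).2 hb
  rw [intervalIntegral.integral_of_le (by positivity)]
  unfold Irho
  symm
  apply setIntegral_eq_of_subset_of_forall_sdiff_eq_zero measurableSet_Ioi
    Set.Ioc_subset_Ioi_self
  intro v hv
  rw [Set.mem_sdiff, Set.mem_Ioi, Set.mem_Ioc, not_and_or] at hv
  rcases hv with ⟨h1, h2 | h2⟩
  · exact absurd h1 h2
  · exact res_rho_zero (by rw [not_le] at h2; linarith)

private lemma res_comp {x d c : ℝ} (hx : 0 < x) (hc : 0 < c) (J : ℕ) :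
    |∑ j ∈ range J, resG x (d + c * j) - ∫ s in (0 : ℝ)..J, resG x (d + c * s)| ≤ 1 := by
  set H1 : ℝ → ℝ := fun s => resG x (min (d + c * s) x) with hH1
  set H2 : ℝ → ℝ := fun s => resG x (max (d + c * s) x) with hH2
  have m1 : Monotone H1 := by
    intro s t hst
    have : d + c * s ≤ d + c * t := by nlinarith
    exact resG_mono hx (min_le_min_right _ this) (min_le_right _ _)
  have m2 : Antitone H2 := by
    intro s t hst
    have : d + c * s ≤ d + c * t := by nlinarith
    exact resG_anti hx (max_le_max_right _ this) (le_max_right _ _)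
  have hsum : ∀ s : ℝ, resG x (d + c * s) = H1 s + H2 s - resG x x := by
    intro s
    simp only [hH1, hH2]
    rcases le_total (d + c * s) x with h | h
    · rw [min_eq_left h, max_eq_right h]; ring
    · rw [min_eq_right h, max_eq_left h]; ring
  have i1 : IntervalIntegrable H1 volume 0 J := m1.intervalIntegrable
  have i2 : IntervalIntegrable H2 volume 0 J := m2.intervalIntegrable
  have e1 : ∑ j ∈ range J, resG x (d + c * j)
      = ∑ j ∈ range J, H1 (0 + (j : ℕ)) + ∑ j ∈ range J, H2 (0 + (j : ℕ)) - J * resG x x := by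
    have hs1 : ∑ j ∈ range J, resG x (d + c * j)
        = ∑ j ∈ range J, (H1 (0 + (j : ℕ)) + H2 (0 + (j : ℕ)) - resG x x) := by
      apply sum_congr rfl
      intro j _
      rw [zero_add]
      exact hsum j
    rw [hs1, ← sum_add_distrib, sum_sub_distrib, sum_const, card_range, nsmul_eq_mul]
  have e2 : ∫ s in (0 : ℝ)..J, resG x (d + c * s)
      = (∫ s in (0 : ℝ)..J, H1 s) + (∫ s in (0 : ℝ)..J, H2 s) - J * resG x x := by
    rw [← intervalIntegral.integral_add i1 i2]
    have : (J : ℝ) * resG x x = ∫ _ in (0 : ℝ)..J, resG x x := by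
      rw [intervalIntegral.integral_const, smul_eq_mul, sub_zero]
    rw [this, ← intervalIntegral.integral_sub (i1.add i2) intervalIntegrable_const]
    apply intervalIntegral.integral_congr
    intro s _
    exact hsum s
  have a1 := (m1.monotoneOn (Set.Icc (0 : ℝ) (0 + (J : ℕ)))).sum_le_integral
  have a2 := (m1.monotoneOn (Set.Icc (0 : ℝ) (0 + (J : ℕ)))).integral_le_sum
  have b1 := (m2.antitoneOn (Set.Icc (0 : ℝ) (0 + (J : ℕ)))).sum_le_integral
  have b2 := (m2.antitoneOn (Set.Icc (0 : ℝ) (0 + (J : ℕ)))).integral_le_sum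
  have c1 : ∑ i ∈ range J, H1 (0 + ((i + 1 : ℕ) : ℝ)) = ∑ i ∈ range J, H1 (0 + (i : ℕ))
      + (H1 (0 + (J : ℕ)) - H1 (0 + (0 : ℕ))) := by
    rw [← Finset.sum_range_sub (fun i : ℕ => H1 (0 + (i : ℕ))), ← sum_add_distrib]
    apply sum_congr rfl
    intro i _
    ring
  have c2 : ∑ i ∈ range J, H2 (0 + ((i + 1 : ℕ) : ℝ)) = ∑ i ∈ range J, H2 (0 + (i : ℕ))
      + (H2 (0 + (J : ℕ)) - H2 (0 + (0 : ℕ))) := by
    rw [← Finset.sum_range_sub (fun i : ℕ => H2 (0 + (i : ℕ))), ← sum_add_distrib]
    apply sum_congr rfl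
    intro i _
    ring
  rw [c1] at a2
  rw [c2] at b1
  rw [zero_add] at a1 a2 b1 b2
  rw [e1, e2]
  have n1 : H1 (J : ℕ) ≤ 1 := resG_le _ _
  have n2 : 0 ≤ H1 (0 + (0 : ℕ)) := resG_nonneg _ _
  have n3 : H2 (0 + (0 : ℕ)) ≤ 1 := resG_le _ _
  have n4 : 0 ≤ H2 (J : ℕ) := resG_nonneg _ _
  rw [abs_le]
  constructor <;> linarith

theorem RES : S_RES := by
  refine ⟨2, by norm_num, ?_⟩
  intro x m a hx hm
  have hx0 : 0 < x := by linarith
  have hm0 : (0 : ℝ) < m := by exact_mod_cast hm
  set d := a % m with hd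
  have hdm : d < m := Nat.mod_lt _ hm
  set J := ⌊8 * x⌋₊ + 1 with hJ
  have hJx : 8 * x < J := by
    rw [hJ]; push_cast; exact Nat.lt_floor_add_one _
  have hJb : 8 * x ≤ (d : ℝ) + m * J := by
    have h1 : (1 : ℝ) ≤ m := by exact_mod_cast hm
    have h2 : (J : ℝ) ≤ m * J := le_mul_of_one_le_left (by positivity) h1
    have h3 : (0 : ℝ) ≤ d := by positivity
    linarith
  have key : ∑ t ∈ (Icc 1 ⌊8 * x⌋₊).filter (fun t => t ≡ a [MOD m]), wt x t
      = ∑ j ∈ range J, resG x ((d : ℝ) + m * j) := by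
    have h1 : ∑ t ∈ (Icc 1 ⌊8 * x⌋₊).filter (fun t => t ≡ a [MOD m]), wt x t
        = ∑ t ∈ (Icc 1 ⌊8 * x⌋₊).filter (fun t => t ≡ a [MOD m]), resG x t := by
      apply sum_congr rfl
      intro t ht
      rw [mem_filter, mem_Icc] at ht
      unfold resG wt
      rw [if_neg]
      rw [not_le]
      exact_mod_cast ht.1.1
    rw [h1]
    have h2 : ∑ j ∈ range J, resG x ((d : ℝ) + m * j)
        = ∑ t ∈ (range J).image (fun j => d + m * j), resG x t := by
      rw [sum_image]
      · apply sum_congr rfl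
        intro j _
        push_cast
        rfl
      · intro i _ j _ hij
        have h3 : m * i = m * j := by
          have : d + m * i = d + m * j := hij
          omega
        exact Nat.eq_of_mul_eq_mul_left hm h3
    rw [h2]
    apply sum_subset
    · intro t ht
      rw [mem_filter, mem_Icc] at ht
      rw [mem_image]
      refine ⟨t / m, ?_, ?_⟩
      · rw [mem_range]
        exact lt_of_le_of_lt (Nat.div_le_self _ _) (by omega)
      · have h3 : t % m = d := ht.2
        have := Nat.mod_add_div t m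
        omega
    · intro t ht hnt
      rw [mem_image] at ht
      obtain ⟨j, _, rfl⟩ := ht
      rw [mem_filter, not_and_or, mem_Icc, not_and_or] at hnt
      rcases hnt with (h | h) | h
      · have h0 : d + m * j = 0 := by omega
        rw [h0]
        unfold resG
        simp
      · apply resG_zero hx0
        rw [not_le] at h
        exact (Nat.lt_of_floor_lt h).le
      · exfalso
        apply h
        show (d + m * j) % m = a % m
        rw [Nat.add_mul_mod_self_left, hd, Nat.mod_mod]
  rw [key]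
  have h1 := res_comp (x := x) (d := d) (c := m) hx0 hm0 J
  have h2 : ∫ s in (0 : ℝ)..J, resG x ((d : ℝ) + m * s)
      = (m : ℝ)⁻¹ * ∫ u in (d : ℝ)..(d + m * J), resG x u := by
    rw [intervalIntegral.integral_comp_add_mul (fun u => resG x u) hm0.ne', smul_eq_mul, mul_zero,
      add_zero]
  have hint : ∀ p q : ℝ, IntervalIntegrable (resG x) volume p q := by
    intro p q
    have m1 : Monotone (fun s => resG x (min s x)) := fun s t hst =>
      resG_mono hx0 (min_le_min_right _ hst) (min_le_right _ _)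
    have m2 : Antitone (fun s => resG x (max s x)) := fun s t hst =>
      resG_anti hx0 (max_le_max_right _ hst) (le_max_right _ _)
    have i1 : IntervalIntegrable (fun s => resG x (min s x)) volume p q := m1.intervalIntegrable
    have i2 : IntervalIntegrable (fun s => resG x (max s x)) volume p q := m2.intervalIntegrable
    have h3 := (i1.add i2).sub (intervalIntegrable_const (c := resG x x))
    refine h3.congr ?_
    intro s _
    show resG x (min s x) + resG x (max s x) - resG x x = resG x s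
    rcases le_total s x with h | h
    · rw [min_eq_left h, max_eq_right h]; ring
    · rw [min_eq_right h, max_eq_left h]; ring
  have h3 : (∫ u in (0 : ℝ)..d, resG x u) + ∫ u in (d : ℝ)..(d + m * J), resG x u = x * Irho := by
    rw [intervalIntegral.integral_add_adjacent_intervals (hint _ _) (hint _ _)]
    exact res_int hx0 hJb
  have hd0 : (0 : ℝ) ≤ d := by positivity
  have h4 : 0 ≤ ∫ u in (0 : ℝ)..d, resG x u :=
    intervalIntegral.integral_nonneg hd0 (fun u _ => resG_nonneg _ _)
  have h5 : ∫ u in (0 : ℝ)..d, resG x u ≤ d := by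
    have h6 : ∫ u in (0 : ℝ)..d, resG x u ≤ ∫ u in (0 : ℝ)..d, (1 : ℝ) :=
      intervalIntegral.integral_mono_on hd0 (hint _ _) intervalIntegrable_const
        (fun u _ => resG_le _ _)
    rw [intervalIntegral.integral_const, smul_eq_mul, mul_one, sub_zero] at h6
    exact h6
  have hdm' : (d : ℝ) ≤ m := by exact_mod_cast hdm.le
  rw [h2] at h1
  have h6 : ∫ u in (d : ℝ)..(d + m * J), resG x u = x * Irho - ∫ u in (0 : ℝ)..d, resG x u := by
    linarith
  rw [h6] at h1
  have h7 : 0 ≤ (m : ℝ)⁻¹ * ∫ u in (0 : ℝ)..d, resG x u := by positivity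
  have h8 : (m : ℝ)⁻¹ * ∫ u in (0 : ℝ)..d, resG x u ≤ 1 := by
    rw [inv_mul_le_iff₀ hm0]
    linarith
  have h9 : (m : ℝ)⁻¹ * (x * Irho - ∫ u in (0 : ℝ)..d, resG x u)
      = x * Irho / m - (m : ℝ)⁻¹ * ∫ u in (0 : ℝ)..d, resG x u := by
    rw [mul_sub]; congr 1; ring
  rw [h9, abs_le] at h1
  rw [abs_le]
  constructor <;> linarith

end MTA
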