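import Pool.Agent.H20.MT.Stmts

/-!
# Module TU1
-/

set_option autoImplicit false

namespace MTA
open Finset

private lemma tu1_order {p l : ℕ} (hp : p.Prime) (hl : l.Prime) (hd : l ∣ 2 ^ p - 1) :
    orderOf (2 : ZMod l) = p ∧ p < l := by
  have := Fact.mk hl
  have h2 : (2 : ZMod l) ^ p = 1 := by
    have h1 : ((2 ^ p - 1 : ℕ) : ZMod l) = 0 := (ZMod.natCast_eq_zero_iff _ _).2 hd
    rw [Nat.cast_sub Nat.one_le_two_pow] at h1
    push_cast at h1
    exact sub_eq_zero.1 h1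
  have h3 : (2 : ZMod l) ≠ 1 := by
    intro h
    have h4 : (1 : ZMod l) = 0 := by
      have : (2 : ZMod l) - 1 = 0 := by rw [h, sub_self]
      rw [← this]; norm_num
    exact one_ne_zero h4
  have := Fact.mk hp
  have h4 : orderOf (2 : ZMod l) = p := orderOf_eq_prime h2 h3
  refine ⟨h4, ?_⟩
  have h5 : (2 : ZMod l) ≠ 0 := by
    intro h
    rw [h, zero_pow hp.ne_zero] at h2
    exact zero_ne_one h2
  have h6 : orderOf (2 : ZMod l) ∣ l - 1 := by
    apply orderOf_dvd_of_pow_eq_one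
    exact ZMod.pow_card_sub_one_eq_one h5
  rw [h4] at h6
  have h8 := hl.two_le
  have h7 := Nat.le_of_dvd (by omega) h6
  omega

theorem TU1 : S_TU1 := by
  intro N0
  have hex : ∀ N : ℕ, ∃ q : ℕ × ℕ, q.1.Prime ∧ q.2.Prime ∧ N < q.1 ∧ q.1 < q.2 ∧
      orderOf (2 : ZMod q.2) = q.1 := by
    intro N
    obtain ⟨p, hpN, hp⟩ := Nat.exists_infinite_primes (N + 1)
    have h1 : 2 ^ p - 1 ≠ 1 := by
      have : 2 ^ 2 ≤ 2 ^ p := Nat.pow_le_pow_right (by norm_num) hp.two_le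
      omega
    obtain ⟨l, hl, hd⟩ := Nat.exists_prime_and_dvd h1
    obtain ⟨h2, h3⟩ := tu1_order hp hl hd
    exact ⟨(p, l), hp, hl, by dsimp only; omega, h3, h2⟩
  choose f hf using hex
  let g : ℕ → ℕ × ℕ := fun s => Nat.rec (f N0) (fun _ q => f (max N0 q.2)) s
  have hg : ∀ s, ∃ M, N0 ≤ M ∧ g s = f M := by
    intro s
    cases s with
    | zero => exact ⟨N0, le_rfl, rfl⟩
    | succ s => exact ⟨_, le_max_left _ _, rfl⟩
  refine ⟨fun s => (g s).1, fun s => (g s).2, ?_⟩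
  intro s
  obtain ⟨M, hM, hgM⟩ := hg s
  obtain ⟨h1, h2, h3, h4, h5⟩ := hf M
  rw [← hgM] at h1 h2 h3 h4 h5
  refine ⟨h1, h2, lt_of_le_of_lt hM h3, h4, ?_, h5⟩
  have h6 : g (s + 1) = f (max N0 (g s).2) := rfl
  have h7 := (hf (max N0 (g s).2)).2.2.1
  rw [← h6] at h7
  exact lt_of_le_of_lt (le_max_right _ _) h7

end MTA
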